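import Pool.Agent.Run7.h808.DN.Main

/-!
# Infinity sets of `𝒜`-superharmonic functions, with a prescribed majorant

Let `p`, `dμ = w dx` and `𝒜` be as in the problem. There is a function `C` of the radius, which depends
on these data alone, with the following property. For every `𝒜`-polar set `E ⊆ ℝⁿ` and every lower
semicontinuous function `h : ℝⁿ → [0, ∞]` with `h = ∞` on `E` there is an `𝒜`-superharmonic function `u`
in `ℝⁿ` with `u = ∞` on `E` and `-C r ≤ u ≤ C r + h` on the ball of radius `r`, for all `r`. If `E` is a
`G_δ` set, then `u` can be chosen with `{u = ∞} = E`, which answers the question (take `h = ∞`); this part is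
known without weights (Kilpeläinen, Singular solutions to p-Laplacian type equations, 1999).

So infinity sets are the polar `G_δ` sets, the functions can be chosen to grow as slowly as we like near
`E` (for instance `h` a function of the distance from `E` if `E` is closed), and for an arbitrary polar
set `E` and closed sets `F_k` disjoint from `E` there is `u` which is infinite on `E` and bounded above
on the bounded subsets of each `F_k` (take for `h` the number of the `k` with `x ∉ F_0 ∪ ... ∪ F_k`).

The level construction is that of the starting library `Helper533/Deny`, whose theorem `deny_theorem`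
is the case of a `G_δ` set without a majorant; here the constants are shown not to depend on `E` or on
the neighbourhoods of `E` which occur in the construction.
-/

open MeasureTheory Filter Topology Set
open scoped ENNReal NNReal RealInnerProductSpace

namespace Pool.Agent.Results.MP_9b58c5_an.PrescribedMajorant

open Pool.Agent.Helper533 Pool.Agent.Helper533.Polar.Stmt

/-- **`𝒜`-superharmonic functions with given infinities below a given majorant.** -/
theorem result {n : ℕ} (hn : 1 ≤ n) {p α β : ℝ} (hp : 1 < p) {w : Sp n → ℝ}
    {𝒜 : Sp n → Sp n → Sp n} (hw : Deny.IsAdmissible p w) (hA : IsOperator p α β w 𝒜) :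
    ∃ C : ℝ → ℝ, ∀ E : Set (Sp n), Deny.IsPolar 𝒜 p w E →
      ∀ h : Sp n → ℝ≥0∞, LowerSemicontinuous h → (∀ x ∈ E, h x = ⊤) →
      ∃ u : Sp n → EReal, Deny.IsSuperharmonic 𝒜 p w univ u ∧ (∀ x ∈ E, u x = ⊤) ∧
        (IsGδ E → {x | u x = ⊤} = E) ∧
        ∀ (r : ℝ) (x : Sp n), ‖x‖ ≤ r →
          ((-C r : ℝ) : EReal) ≤ u x ∧ u x ≤ ((C r : ℝ) : EReal) + (h x : EReal) := by
  obtain ⟨C, hC⟩ := Pool.Agent.Run7.h808.DN.main_all hn hp hw hA
  refine ⟨C, fun E hE h hh hhE => ?_⟩
  obtain ⟨u, h1, h2, h3, h4⟩ := hC E hE h hh hhE
  exact ⟨u, h1, h2, fun hG => Set.ext fun x => ⟨h3 hG x, h2 x⟩, h4⟩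

end Pool.Agent.Results.MP_9b58c5_an.PrescribedMajorant
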